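import Pool.Agent.Lib.MP_870895_nt.Hedge

set_option autoImplicit false

open MeasureTheory

namespace Pool.Agent.Results.MP_870895_nt.Identity

/-- The point of the five-dimensional torus with angles `2 π θ j`. -/
noncomputable def torus (θ : Fin 5 → ℝ) : Fin 5 → ℂ :=
  fun j => Complex.exp (2 * (Real.pi : ℂ) * Complex.I * (θ j : ℂ))

/-- The integrand of the logarithmic Mahler measure of a polynomial in five variables. -/
noncomputable def logAbs (P : MvPolynomial (Fin 5) ℂ) (θ : Fin 5 → ℝ) : ℝ :=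
  Real.log ‖MvPolynomial.eval (torus θ) P‖

/-- The logarithmic Mahler measure: the integral over the unit cube. -/
noncomputable def mahler (P : MvPolynomial (Fin 5) ℂ) : ℝ :=
  ∫ θ in Set.Icc (0 : Fin 5 → ℝ) 1, logAbs P θ

/-- The polynomial `1 + x + y + z + w + v`. -/
noncomputable def lin : MvPolynomial (Fin 5) ℂ :=
  1 + MvPolynomial.X 0 + MvPolynomial.X 1 + MvPolynomial.X 2 + MvPolynomial.X 3 + MvPolynomial.X 4

/-- Dedekind eta at `q = exp (-t)`; the index `n` stands for the factor `1 - q ^ (n + 1)`. -/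
noncomputable def etaExp (t : ℝ) : ℝ :=
  Real.exp (-t / 24) * ∏' n : ℕ, (1 - Real.exp (-((n : ℝ) + 1) * t))

/-- The product over `d` in `{1, 2, 3, 6}` of the squares of eta at `exp (-d t)`. -/
noncomputable def F (t : ℝ) : ℝ := ∏ d ∈ ({1, 2, 3, 6} : Finset ℕ), etaExp (d * t) ^ 2

open Pool.Agent.Lib.MP_870895_nt in
theorem result :
    (∀ t : ℝ, 0 < t → Multipliable fun n : ℕ => 1 - Real.exp (-((n : ℝ) + 1) * t)) ∧
    (∀ t : ℝ, 0 < t →
      (etaExp t : ℂ) = ModularForm.eta (Complex.I * (t : ℂ) / (2 * (Real.pi : ℂ)))) ∧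
    volume {θ : Fin 5 → ℝ | MvPolynomial.eval (torus θ) lin = 0} = 0 ∧
    IntegrableOn (logAbs lin) (Set.Icc (0 : Fin 5 → ℝ) 1) ∧
    IntegrableOn (fun t : ℝ => t ^ 4 * F t) (Set.Ioi 0) ∧
    mahler lin = 27 / Real.pi ^ 6 * ∫ t in Set.Ioi (0 : ℝ), t ^ 4 * F t := by
  have he : ∀ θ : Fin 5 → ℝ, MvPolynomial.eval (torus θ) lin = 1 + ∑ j : Fin 5, ee (θ j) := by
    intro θ
    simp only [lin, map_add, map_one, MvPolynomial.eval_X, Fin.sum_univ_five, torus, ee]
    ring
  have hl : logAbs lin = fun θ : Fin 5 → ℝ => Real.log ‖(1 : ℂ) + ∑ j : Fin 5, ee (θ j)‖ := by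
    funext θ; rw [logAbs, he]
  have hF : F = FR := by
    funext t
    have h : etaExp = etaR := rfl
    rw [F, FR, h, Finset.prod_insert (by decide), Finset.prod_insert (by decide),
      Finset.prod_insert (by decide), Finset.prod_singleton]
    push_cast
    rw [one_mul]; ring
  refine ⟨fun t ht => Hedge.mult ht, fun t _ => ?_, ?_, ?_, ?_, ?_⟩
  · have h := eta_zz t
    rw [zz] at h
    have h2 : etaExp t = etaR t := rfl
    rw [h2, ← h]
    congr 1
    push_cast; ring
  · simp only [he]; exact Hedge.null_zero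
  · rw [hl]; exact Hedge.int_log
  · rw [hF]; exact gd_FR.int le_rfl
  · rw [mahler, hl, main, hF]
    simp only [mul_comm (FR _)]
    ring

end Pool.Agent.Results.MP_870895_nt.Identity
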